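import Mathlib
import Pool.Agent.Helper300.JonesT

set_option autoImplicit false
open Set Topology TopologicalSpace

universe u

namespace Pool.Agent.Results.MP_3a3191_gt.ContinuousT

/-- F. B. Jones's set function: `T(A)` is the complement of the set of points `p` that lie in the
interior of some subcontinuum `W` with `W ∩ A = ∅`. -/
def jonesT {S : Type u} [TopologicalSpace S] (A : Set S) : Set S :=
  {p | ∃ W : Set S, IsClosed W ∧ IsConnected W ∧ p ∈ interior W ∧ W ∩ A = ∅}ᶜ

theorem jonesT_eq {S : Type u} [TopologicalSpace S] (A : Set S) :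
    jonesT A = Pool.Agent.Helper300.JonesT.T A := by
  ext p
  simp only [jonesT, Pool.Agent.Helper300.JonesT.T, mem_compl_iff, mem_ofPred_eq, not_exists,
    not_and, mem_interior_iff_mem_nhds, ← nonempty_iff_ne_empty, ne_eq]

theorem isClosed_jonesT {S : Type u} [TopologicalSpace S] (A : Set S) : IsClosed (jonesT A) := by
  rw [jonesT_eq]
  exact Pool.Agent.Helper300.JonesT.isClosed_T A

theorem subset_jonesT {S : Type u} [TopologicalSpace S] (A : Set S) : A ⊆ jonesT A := by
  rw [jonesT_eq]
  exact Pool.Agent.Helper300.JonesT.subset_T A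

/-- `T` as a self-map of the hyperspace of nonempty closed (equivalently, nonempty compact)
subsets of the compact Hausdorff space `S`, which carries the Vietoris topology. -/
def jonesMap {S : Type u} [TopologicalSpace S] [CompactSpace S] (A : NonemptyCompacts S) :
    NonemptyCompacts S where
  carrier := jonesT (A : Set S)
  isCompact' := (isClosed_jonesT _).isCompact
  nonempty' := A.nonempty.mono (subset_jonesT _)

/-- The space is indecomposable: it is not the union of two proper subcontinua. -/
def Indecomposable (S : Type u) [TopologicalSpace S] : Prop :=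
  ¬ ∃ A B : Set S, IsClosed A ∧ IsConnected A ∧ IsClosed B ∧ IsConnected B ∧
    A ≠ univ ∧ B ≠ univ ∧ A ∪ B = univ

theorem lsc_of_continuous {S : Type u} [TopologicalSpace S] [CompactSpace S]
    (h : Continuous (jonesMap (S := S))) : Pool.Agent.Helper300.JonesT.LSC S := by
  let _ : TopologicalSpace (Set S) := TopologicalSpace.vietoris S
  intro A hA hne U hU hT
  have h1 : IsOpen {K : NonemptyCompacts S | ((jonesMap K : Set S) ∩ U).Nonempty} :=
    (NonemptyCompacts.isOpen_inter_nonempty_of_isOpen hU).preimage h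
  obtain ⟨O, hO, hOeq⟩ := NonemptyCompacts.isEmbedding_coe.isInducing.isOpen_iff.1 h1
  let KA : NonemptyCompacts S := ⟨⟨A, hA.isCompact⟩, hne⟩
  have hKA : KA ∈ {K : NonemptyCompacts S | ((jonesMap K : Set S) ∩ U).Nonempty} := by
    show (jonesT A ∩ U).Nonempty
    rw [jonesT_eq]; exact hT
  rw [← hOeq] at hKA
  have hAO : A ∈ O := hKA
  obtain ⟨_, ⟨u, ⟨hu1, hu2⟩, rfl⟩, hAu, huO⟩ :=
    (vietoris.isTopologicalBasis (α := S)).exists_subset_of_mem_open hAO hO
  refine ⟨u, hu1, hu2, hAu.1, hAu.2, ?_⟩
  intro B hB hBne hBu hBV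
  let KB : NonemptyCompacts S := ⟨⟨B, hB.isCompact⟩, hBne⟩
  have hKB : KB ∈ {K : NonemptyCompacts S | ((jonesMap K : Set S) ∩ U).Nonempty} := by
    rw [← hOeq]
    exact huO ⟨hBu, hBV⟩
  have h2 : (jonesT B ∩ U).Nonempty := hKB
  rwa [jonesT_eq] at h2

/-- **Bellamy's question.** Let `S` be a continuum (a compact connected Hausdorff space) for which
Jones's set function `T` is continuous. If `T(p)` has nonempty interior for some point `p`, then
`S` is indecomposable. -/
theorem result (S : Type u) [TopologicalSpace S] [CompactSpace S] [T2Space S] [ConnectedSpace S]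
    (hT : Continuous (jonesMap (S := S))) (p : S) (hp : (interior (jonesT {p})).Nonempty) :
    Indecomposable S := by
  rintro ⟨A, B, hA, hAc, hB, hBc, hA1, hB1, hAB⟩
  have h := lsc_of_continuous hT
  rw [jonesT_eq] at hp
  have hu := Pool.Agent.Helper300.JonesT.T_eq_univ h hp
  obtain ⟨b, hb⟩ := (ne_univ_iff_exists_notMem A).1 hA1
  obtain ⟨x, hx⟩ := (ne_univ_iff_exists_notMem B).1 hB1
  have h1 : A ∈ 𝓝 x := by
    refine Filter.mem_of_superset (hB.isOpen_compl.mem_nhds hx) ?_
    intro y hy
    have : y ∈ A ∪ B := by rw [hAB]; exact mem_univ y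
    exact this.resolve_right hy
  have h2 : x ∈ Pool.Agent.Helper300.JonesT.T ({b} : Set S) := by rw [hu b]; exact mem_univ x
  obtain ⟨z, hz1, hz2⟩ := h2 A hA hAc h1
  rw [mem_singleton_iff.1 hz2] at hz1
  exact hb hz1

end Pool.Agent.Results.MP_3a3191_gt.ContinuousT
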